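import Pool.Agent.H7.GT.Stmts

set_option autoImplicit false

open Finset

namespace Pool.GT7

open Pool.Agent.H23.KT Pool.Agent.H46.KW Pool.KQ

theorem CPL_es_zero {b : ℕ} (n : Fin b → ℕ) : es n 0 = 1 := by
  unfold es
  rw [Polynomial.coeff_zero_eq_eval_zero, Polynomial.eval_prod]
  simp

theorem CPL_es_succ {b : ℕ} (n : Fin (b + 1) → ℕ) (u : ℕ) :
    es n (u + 1) = es (fun i => n i.succ) (u + 1) + n 0 * es (fun i => n i.succ) u := by
  unfold es
  rw [Fin.prod_univ_succ, add_mul, one_mul, Polynomial.coeff_add, mul_assoc,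
    Polynomial.coeff_C_mul, Polynomial.coeff_X_mul]

theorem CPL_un {V : Type} [DecidableEq V] {b : ℕ} (P : Fin (b + 1) → Finset V) :
    un P = P 0 ∪ un (fun i => P i.succ) := by
  ext x
  simp only [un, mem_biUnion, mem_univ, true_and, mem_union]
  exact Fin.exists_fin_succ

theorem CPL_step {V : Type} [DecidableEq V] (H : SimpleGraph V) (U : Finset V) (u : ℕ)
    (S : Finset V) (h1 : ∀ x ∈ S, x ∉ U) (h2 : ∀ x ∈ S, ∀ y ∈ S, ¬ H.Adj x y)
    (h3 : ∀ x ∈ S, ∀ y ∈ U, H.Adj x y) :
    kc H (S ∪ U) (u + 1) = kc H U (u + 1) + S.card * kc H U u := by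
  induction S using Finset.induction_on with
  | empty => simp
  | insert x S hx ih =>
    have hi := ih (fun y hy => h1 y (mem_insert_of_mem hy))
      (fun y hy z hz => h2 y (mem_insert_of_mem hy) z (mem_insert_of_mem hz))
      (fun y hy => h3 y (mem_insert_of_mem hy))
    have hxU : x ∉ U := h1 x (mem_insert_self _ _)
    rw [kc_succ H (W := insert x S ∪ U) (x := x) (mem_union_left _ (mem_insert_self _ _)) u]
    have e1 : (insert x S ∪ U).erase x = S ∪ U := by
      ext y
      simp only [mem_erase, mem_union, mem_insert]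
      constructor
      · rintro ⟨hne, (rfl | h) | h⟩
        · exact absurd rfl hne
        · exact Or.inl h
        · exact Or.inr h
      · rintro (h | h)
        · exact ⟨fun e => hx (e ▸ h), Or.inl (Or.inr h)⟩
        · exact ⟨fun e => hxU (e ▸ h), Or.inr h⟩
    have e2 : nb H (insert x S ∪ U) x = U := by
      ext y
      rw [mem_nb]
      constructor
      · rintro ⟨hy, hadj⟩
        rcases mem_union.1 hy with hy | hy
        · exact absurd hadj (h2 x (mem_insert_self _ _) y hy)
        · exact hy
      · intro hy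
        exact ⟨mem_union_right _ hy, h3 x (mem_insert_self _ _) y hy⟩
    rw [e1, e2, hi, card_insert_of_notMem hx]
    ring

theorem CPL_thm : CPLStmt := by
  intro V _ H b
  induction b with
  | zero =>
    intro P _ _ u
    have e1 : un P = ∅ := by
      ext x
      simp [un]
    rw [e1]
    rcases u with _ | u
    · rw [kc_zero, CPL_es_zero]
    · rw [kc_eq_zero H (by simp)]
      unfold es
      simp [Polynomial.coeff_one]
  | succ b ih =>
    intro P hP hH u
    rcases u with _ | u
    · rw [kc_zero, CPL_es_zero]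
    · have ih' := ih (fun i => P i.succ)
        ⟨fun i j hij => hP.dis _ _ (fun h => hij (Fin.succ_injective _ h)), fun i => hP.ind _⟩
        (fun i k hik => hH _ _ (fun h => hik (Fin.succ_injective _ h)))
      rw [CPL_un, CPL_step H (un (fun i => P i.succ)) u (P 0), ih', ih', CPL_es_succ]
      · rfl
      · intro x hx hxU
        obtain ⟨i, _, hi⟩ := mem_biUnion.1 hxU
        exact disjoint_left.1 (hP.dis 0 i.succ (Fin.succ_ne_zero i).symm) hx hi
      · exact hP.ind 0
      · intro x hx y hy
        obtain ⟨i, _, hi⟩ := mem_biUnion.1 hy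
        exact hH 0 i.succ (Fin.succ_ne_zero i).symm x hx y hi

end Pool.GT7
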